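import Mathlib
import Pool.Agent.H25.Rmin

namespace Pool.Agent.Results.MP_122707_co.Dense

open Finset Pointwise H25.Harb Pool.Agent.H2.Kneser

/-- The least size of `A + A` over `m`-subsets `A` of `ZMod n`. -/
noncomputable def rho (n m : ℕ) : ℕ :=
  sInf {s : ℕ | ∃ A : Finset (ZMod n), A.card = m ∧ (A + A).card = s}

/-- The least size of the restricted sumset over `m`-subsets `A` of `ZMod n`. -/
noncomputable def rhoHat (n m : ℕ) : ℕ :=
  sInf {s : ℕ | ∃ A : Finset (ZMod n), A.card = m ∧
    (Finset.image (fun p : ZMod n × ZMod n => p.1 + p.2)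
      ((A ×ˢ A).filter (fun p : ZMod n × ZMod n => p.1 ≠ p.2))).card = s}

theorem result (M : ℕ) (hM : 0 < M) : ∃ n0 : ℕ, ∀ n m : ℕ, n0 ≤ n → m ≤ n →
    M * rho n m + n ≤ 2 * M * m →
    rhoHat n m = rho n m ∧ rho n m ≤ 2 * m - 4 := by
  obtain ⟨n0, hn0⟩ := badsmall 1 (2 * M) (by omega)
  refine ⟨n0 + 4 * M, fun n m hn hm h => ?_⟩
  have : NeZero n := ⟨by omega⟩
  obtain ⟨A0, -, hA0⟩ := exists_subset_card_eq (s := (univ : Finset (ZMod n))) (n := m)
    (by rw [card_univ, ZMod.card]; exact hm)
  refine ⟨le_antisymm ?_ ?_, ?_⟩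
  · obtain ⟨A, hA, hs⟩ := Nat.sInf_mem (s := {s : ℕ | ∃ A : Finset (ZMod n), A.card = m ∧
      (A + A).card = s}) ⟨_, A0, hA0, rfl⟩
    refine le_trans (Nat.sInf_le ⟨A, hA, rfl⟩) (le_trans (card_le_card fun x hx => ?_) hs.le)
    obtain ⟨p, hp, rfl⟩ := mem_image.1 hx
    obtain ⟨p1, p2⟩ := mem_product.1 (mem_filter.1 hp).1
    exact add_mem_add p1 p2
  · obtain ⟨A, hA, hs⟩ := Nat.sInf_mem (s := {s : ℕ | ∃ A : Finset (ZMod n), A.card = m ∧
      (Finset.image (fun p : ZMod n × ZMod n => p.1 + p.2)
      ((A ×ˢ A).filter (fun p : ZMod n × ZMod n => p.1 ≠ p.2))).card = s}) ⟨_, A0, hA0, rfl⟩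
    refine le_trans ?_ hs.le
    have hb := hn0 (ZMod n) (by rw [ZMod.card]; omega) A
    rw [ZMod.card] at hb
    have hsp := card_filter_add_card_filter_not (s := A) (fun a => 2 * 1 < (rep A a).card)
    set J := A.filter fun a => 2 * 1 < (rep A a).card with hJ
    generalize (A.filter fun a => ¬ 2 * 1 < (rep A a).card).card = b at *
    have hJA : J ⊆ A := filter_subset _ _
    refine le_trans ?_ (card_le_card (s := J + A) fun x hx => ?_)
    · have hbm : b < m := Nat.lt_of_mul_lt_mul_left (a := 2 * M) (by omega)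
      have hne : J.Nonempty := card_pos.1 (by omega)
      have kn := kneser hne (hne.mono hJA)
      have sg := sg_st (J + A)
      set K := st (J + A) with hK
      obtain ⟨e, he⟩ := Per.card_dvd sg (fun x hx k hk => mem_univ _ : Per K univ)
      obtain ⟨c', hc'⟩ := (sg.per_add J).card_dvd sg
      obtain ⟨c, hc⟩ := (sg.per_add A).card_dvd sg
      have h1 := card_le_card (sg.subset_add J)
      have h2 := card_le_card (sg.subset_add A)
      have h3 := card_le_univ (A + K)
      have hs0 := sg.pos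
      rw [card_univ, ZMod.card] at he
      rw [ZMod.card] at h3
      rw [hc', hc] at kn
      rw [hc'] at h1
      rw [hc] at h2 h3
      generalize K.card = d at *
      by_cases hcc : c ≤ c'
      · obtain ⟨u, rfl⟩ : ∃ u, c = u + 1 := ⟨c - 1, by
          rcases c with _ | c
          · omega
          · rfl⟩
        rw [mul_comm] at he
        have hce : u + 1 ≤ e := Nat.le_of_mul_le_mul_left (c := d) (by rw [mul_comm d e]; omega) hs0
        have key : rho n m ≤ (u + u + 1) * d := by
          subst he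
          obtain ⟨B, hB, hBc⟩ := exists_subset_card_eq (s := box e d (u + 1)) (n := m)
            (by rw [box_eq e d _ hce, mul_comm]; omega)
          refine le_trans (Nat.sInf_le ⟨B, hBc, rfl⟩)
            (le_trans (card_le_card fun x hx => ?_) (box_le e d _))
          obtain ⟨y, hy, z, hz, rfl⟩ := mem_add.1 hx
          exact box_add e d u u hs0 (hB hy) (hB hz)
        have := Nat.mul_le_mul_left d hcc
        nlinarith
      · have a1 := Nat.mul_le_mul_left d (show c' + 1 ≤ c by omega)
        rw [Nat.mul_succ] at a1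
        have a2 : 2 * J.card ≤ (J + A).card := by omega
        have a3 : M * rho n m ≤ M * (2 * J.card) := by
          have : 2 * M * m = M * (2 * J.card) + 2 * M * b := by rw [← hA, ← hsp]; ring
          omega
        exact (Nat.le_of_mul_le_mul_left a3 hM).trans a2
    · obtain ⟨a, ha, a', ha', rfl⟩ := mem_add.1 hx
      by_cases e : a = a'
      · subst e
        obtain ⟨y, hy, z, hz, hyz⟩ := one_lt_card.1
          (show 1 < (rep A a).card by have := (mem_filter.1 ha).2; omega)
        obtain ⟨w, hw, hw2⟩ : ∃ w ∈ rep A a, w + w ≠ a + a := by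
          by_contra hc
          push Not at hc
          exact hyz (tors n a y z (hc y hy) (hc z hz) (mem_filter.1 hy).2.2 (mem_filter.1 hz).2.2)
        obtain ⟨w1, w2, -⟩ := mem_filter.1 hw
        exact mem_image.2 ⟨(w, a + a - w), mem_filter.2 ⟨mem_product.2 ⟨w1, w2⟩,
          fun e => hw2 (eq_sub_iff_add_eq.1 e)⟩, by simp⟩
      · exact mem_image.2 ⟨(a, a'), mem_filter.2 ⟨mem_product.2 ⟨hJA ha, ha'⟩, e⟩, rfl⟩
  · have : M * (rho n m + 4) ≤ M * (2 * m) := by nlinarith
    have := Nat.le_of_mul_le_mul_left this hM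
    omega

end Pool.Agent.Results.MP_122707_co.Dense
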